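import Mathlib

set_option autoImplicit false

namespace Pool.Agent.Results.MP_45899d_co.StarDichromaticTwo

/-- A digraph, given by its arc relation `A`, is simple: no loops and no pair of opposite arcs
(parallel arcs are excluded because arcs form a relation). -/
def IsSimple {V : Type} (A : V → V → Prop) : Prop :=
  (∀ v, ¬ A v v) ∧ (∀ u v, A u v → ¬ A v u)

/-- Two vertices are adjacent in the underlying undirected graph. -/
def Adj {V : Type} (A : V → V → Prop) (u v : V) : Prop := A u v ∨ A v u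

/-- The underlying undirected graph has a crossing-free straight-line drawing in the plane:
distinct vertices are drawn at distinct points, the segments of two distinct edges meet only in
a common endpoint, and no vertex lies on the segment of an edge it does not belong to. -/
def IsPlanar {V : Type} (A : V → V → Prop) : Prop :=
  ∃ p : V → ℝ × ℝ, Function.Injective p ∧
    (∀ a b c d, Adj A a b → Adj A c d → ¬ ((a = c ∧ b = d) ∨ (a = d ∧ b = c)) →
      ∀ q, q ∈ segment ℝ (p a) (p b) → q ∈ segment ℝ (p c) (p d) →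
        ∃ v, (v = a ∨ v = b) ∧ (v = c ∨ v = d) ∧ q = p v) ∧
    (∀ a b v, Adj A a b → v ≠ a → v ≠ b → p v ∉ segment ℝ (p a) (p b))

/-- The vertex set `S` induces a subdigraph with no directed cycle (equivalently, no closed
directed walk). -/
def IsAcyclicSet {V : Type} (A : V → V → Prop) (S : Set V) : Prop :=
  ∀ v, ¬ Relation.TransGen (fun a b => a ∈ S ∧ b ∈ S ∧ A a b) v v

/-- `c` is an acyclic `(k,d)`-colouring: for every `i` in `Z_k` the set of vertices with colours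
in `{i, i+1, ..., i+d-1}` is acyclic. -/
def IsAcyclicColouring {V : Type} (A : V → V → Prop) (k d : ℕ) (c : V → ZMod k) : Prop :=
  ∀ i : ZMod k, IsAcyclicSet A {v | ∃ j : ℕ, j < d ∧ c v = i + (j : ZMod k)}

/-- The set of all ratios `k/d` such that the digraph has an acyclic `(k,d)`-colouring; the star
dichromatic number is the least element of this set. -/
def ratios {V : Type} (A : V → V → Prop) : Set ℚ :=
  {q | ∃ k d : ℕ, 1 ≤ d ∧ d ≤ k ∧ q = (k : ℚ) / (d : ℚ) ∧ ∃ c : V → ZMod k, IsAcyclicColouring A k d c}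

/-! ### The example -/

/-- arcs of the example -/
def arcs : List (Fin 6 × Fin 6) :=
  [(0,1),(1,2),(0,2),(3,0),(1,3),(3,2),(4,1),(4,3),(2,4),(5,3),(5,0),(2,5)]

/-- the example -/
def D (a b : Fin 6) : Prop := (a, b) ∈ arcs

instance : DecidableRel D := fun a b => by unfold D; infer_instance

/-- integer coordinates of the drawing -/
def px : Fin 6 → ℤ := ![0, 10, 5, 5, 7, 3]
/-- integer coordinates of the drawing -/
def py : Fin 6 → ℤ := ![0, 0, 10, 3, 4, 4]

/-- orientation of three vertices -/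
def ori (a b c : Fin 6) : ℤ :=
  (px b - px a) * (py c - py a) - (py b - py a) * (px c - px a)

/-- real positions -/
noncomputable def pos (v : Fin 6) : ℝ × ℝ := ((px v : ℝ), (py v : ℝ))

/-- real orientation -/
noncomputable def orr (P Q X : ℝ × ℝ) : ℝ :=
  (Q.1 - P.1) * (X.2 - P.2) - (Q.2 - P.2) * (X.1 - P.1)

lemma orr_pos (a b c : Fin 6) : orr (pos a) (pos b) (pos c) = (ori a b c : ℝ) := by
  unfold orr pos ori
  push_cast
  ring

lemma orr_segment (P Q X Y Z : ℝ × ℝ) (h : Z ∈ segment ℝ X Y) :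
    ∃ s : ℝ, 0 ≤ s ∧ s ≤ 1 ∧ orr P Q Z = (1 - s) * orr P Q X + s * orr P Q Y ∧
      Z = ((1 - s) * X.1 + s * Y.1, (1 - s) * X.2 + s * Y.2) := by
  rw [segment_eq_image] at h
  obtain ⟨s, ⟨h0, h1⟩, rfl⟩ := h
  refine ⟨s, h0, h1, ?_, ?_⟩
  · unfold orr
    simp only [Prod.fst_add, Prod.snd_add, Prod.smul_fst, Prod.smul_snd, smul_eq_mul]
    ring
  · ext <;> simp

lemma orr_self_left (P Q : ℝ × ℝ) : orr P Q P = 0 := by unfold orr; ring
lemma orr_self_right (P Q : ℝ × ℝ) : orr P Q Q = 0 := by unfold orr; ring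

lemma orr_zero_of_mem (P Q Z : ℝ × ℝ) (h : Z ∈ segment ℝ P Q) : orr P Q Z = 0 := by
  obtain ⟨s, _, _, h1, _⟩ := orr_segment P Q P Q Z h
  rw [h1, orr_self_left, orr_self_right]; ring

/-- the decidable test that two edges `ab`, `cd` do not cross -/
def ok (a b c d : Fin 6) : Bool :=
  (0 < ori a b c && 0 < ori a b d) || (ori a b c < 0 && ori a b d < 0) ||
  (0 < ori c d a && 0 < ori c d b) || (ori c d a < 0 && ori c d b < 0) ||
  (a == c && ori a b d != 0) || (a == d && ori a b c != 0) ||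
  (b == c && ori a b d != 0) || (b == d && ori a b c != 0)

lemma sep {a b c d : Fin 6} {q : ℝ × ℝ} (h1 : q ∈ segment ℝ (pos a) (pos b))
    (h2 : q ∈ segment ℝ (pos c) (pos d))
    (h : (0 < ori a b c ∧ 0 < ori a b d) ∨ (ori a b c < 0 ∧ ori a b d < 0)) : False := by
  have e1 := orr_zero_of_mem _ _ _ h1
  obtain ⟨s, hs0, hs1, e2, _⟩ := orr_segment (pos a) (pos b) _ _ _ h2
  rw [orr_pos, orr_pos, e1] at e2
  rcases h with ⟨ha, hb⟩ | ⟨ha, hb⟩
  · have ha' : (0:ℝ) < (ori a b c : ℝ) := by exact_mod_cast ha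
    have hb' : (0:ℝ) < (ori a b d : ℝ) := by exact_mod_cast hb
    rcases eq_or_lt_of_le hs0 with h0 | h0
    · rw [← h0] at e2; linarith
    · nlinarith [mul_pos h0 hb', mul_nonneg (sub_nonneg.2 hs1) ha'.le]
  · have ha' : (ori a b c : ℝ) < 0 := by exact_mod_cast ha
    have hb' : (ori a b d : ℝ) < 0 := by exact_mod_cast hb
    rcases eq_or_lt_of_le hs0 with h0 | h0
    · rw [← h0] at e2; linarith
    · nlinarith [mul_pos_of_neg_of_neg (neg_neg_of_pos h0) hb', mul_nonneg (sub_nonneg.2 hs1) (neg_nonneg.2 ha'.le)]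

lemma common {a b c d : Fin 6} {q : ℝ × ℝ} (h1 : q ∈ segment ℝ (pos a) (pos b))
    (h2 : q ∈ segment ℝ (pos c) (pos d)) (hc : ori a b c = 0) (hd : ori a b d ≠ 0) : q = pos c := by
  have e1 := orr_zero_of_mem _ _ _ h1
  obtain ⟨s, hs0, hs1, e2, e3⟩ := orr_segment (pos a) (pos b) _ _ _ h2
  rw [orr_pos, orr_pos, e1, hc] at e2
  have hd' : (ori a b d : ℝ) ≠ 0 := by exact_mod_cast hd
  have : s * (ori a b d : ℝ) = 0 := by push_cast at e2; linarith
  have hs : s = 0 := (mul_eq_zero.1 this).resolve_right hd'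
  rw [e3, hs]
  ext <;> simp

lemma ori_self_left (a b : Fin 6) : ori a b a = 0 := by unfold ori; ring
lemma ori_self_right (a b : Fin 6) : ori a b b = 0 := by unfold ori; ring

lemma ok_spec {a b c d : Fin 6} (h : ok a b c d = true) (q : ℝ × ℝ)
    (h1 : q ∈ segment ℝ (pos a) (pos b)) (h2 : q ∈ segment ℝ (pos c) (pos d)) :
    ∃ v, (v = a ∨ v = b) ∧ (v = c ∨ v = d) ∧ q = pos v := by
  unfold ok at h
  simp only [Bool.or_eq_true, Bool.and_eq_true, decide_eq_true_eq, beq_iff_eq, bne_iff_ne] at h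
  rcases h with ((((((h | h) | h) | h) | h) | h) | h) | h
  · exact (sep h1 h2 (Or.inl h)).elim
  · exact (sep h1 h2 (Or.inr h)).elim
  · exact (sep h2 h1 (Or.inl h)).elim
  · exact (sep h2 h1 (Or.inr h)).elim
  · obtain ⟨rfl, h⟩ := h
    exact ⟨a, Or.inl rfl, Or.inl rfl, common h1 h2 (ori_self_left a b) h⟩
  · obtain ⟨rfl, h⟩ := h
    rw [segment_symm] at h2
    exact ⟨a, Or.inl rfl, Or.inr rfl, common h1 h2 (ori_self_left a b) h⟩
  · obtain ⟨rfl, h⟩ := h
    exact ⟨b, Or.inr rfl, Or.inl rfl, common h1 h2 (ori_self_right a b) h⟩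
  · obtain ⟨rfl, h⟩ := h
    rw [segment_symm] at h2
    exact ⟨b, Or.inr rfl, Or.inr rfl, common h1 h2 (ori_self_right a b) h⟩

instance : DecidableRel (Adj D) := fun a b => by unfold Adj; infer_instance

lemma all_ok : ∀ a b c d : Fin 6, Adj D a b → Adj D c d → ¬ ((a = c ∧ b = d) ∨ (a = d ∧ b = c)) →
    ok a b c d = true := by decide +kernel

lemma has_edge : ∀ a b v : Fin 6, Adj D a b → v ≠ a → v ≠ b →
    ∃ w, Adj D v w := by decide +kernel

lemma pos_injective : Function.Injective pos := by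
  have h : ∀ a b : Fin 6, px a = px b → py a = py b → a = b := by decide
  intro a b hab
  unfold pos at hab
  rw [Prod.mk.injEq] at hab
  exact h a b (by exact_mod_cast hab.1) (by exact_mod_cast hab.2)

lemma D_planar : IsPlanar D := by
  refine ⟨pos, pos_injective, ?_, ?_⟩
  · intro a b c d hab hcd hne q h1 h2
    exact ok_spec (all_ok a b c d hab hcd hne) q h1 h2
  · intro a b v hab hva hvb hmem
    obtain ⟨w, hw⟩ := has_edge a b v hab hva hvb
    obtain ⟨t, ht1, -, ht3⟩ := ok_spec (all_ok a b v w hab hw (by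
      rintro (⟨h, -⟩ | ⟨-, h⟩)
      · exact hva h.symm
      · exact hvb h.symm)) (pos v) hmem (left_mem_segment ℝ _ _)
    have := pos_injective ht3
    subst this
    rcases ht1 with h | h
    · exact hva h
    · exact hvb h

lemma acyclic_of_rank {V : Type} (A : V → V → Prop) (S : Set V) (f : V → ℕ)
    (h : ∀ a b, a ∈ S → b ∈ S → A a b → f a < f b) : IsAcyclicSet A S := by
  intro v hv
  have key : ∀ a b, Relation.TransGen (fun a b => a ∈ S ∧ b ∈ S ∧ A a b) a b → f a < f b := by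
    intro a b hab
    induction hab with
    | single h1 => exact h _ _ h1.1 h1.2.1 h1.2.2
    | tail _ h1 ih => exact ih.trans (h _ _ h1.1 h1.2.1 h1.2.2)
  exact lt_irrefl _ (key v v hv)

/-- the two-colouring -/
def col : Fin 6 → ZMod 2 := ![0, 0, 0, 1, 1, 1]

/-- a common topological rank for the two colour classes -/
def rk : Fin 6 → ℕ := ![0, 1, 2, 2, 0, 1]

lemma col_ok : IsAcyclicColouring D 2 1 col := by
  intro i
  apply acyclic_of_rank D _ rk
  intro a b ha hb hab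
  have h : ∀ a b : Fin 6, col a = col b → D a b → rk a < rk b := by decide
  apply h a b _ hab
  obtain ⟨j, hj, h1⟩ := ha
  obtain ⟨j', hj', h2⟩ := hb
  have e1 : j = 0 := by omega
  have e2 : j' = 0 := by omega
  rw [h1, h2, e1, e2]

lemma triangle_bad {V : Type} {A : V → V → Prop} {S : Set V} (hS : IsAcyclicSet A S) {a b c : V}
    (hab : A a b) (hbc : A b c) (hca : A c a) (ha : a ∈ S) (hb : b ∈ S) (hc : c ∈ S) : False := by
  apply hS a
  exact Relation.TransGen.tail (Relation.TransGen.tail (Relation.TransGen.single ⟨ha, hb, hab⟩)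
    ⟨hb, hc, hbc⟩) ⟨hc, ha, hca⟩

lemma lower (k d : ℕ) (hd : 1 ≤ d) (hk : d ≤ k) (hkd : k < 2 * d) (c : Fin 6 → ZMod k)
    (hc : IsAcyclicColouring D k d c) : False := by
  have hk0 : 0 < k := by omega
  have : NeZero k := ⟨hk0.ne'⟩
  set R : Set (Fin 6) := {v | ∃ j : ℕ, j < d ∧ c v = c 2 + (j : ZMod k)} with hR
  set L : Set (Fin 6) := {v | ∃ j : ℕ, j < d ∧ c v = (c 2 - ((d - 1 : ℕ) : ZMod k)) + (j : ZMod k)} with hL
  have hRa : IsAcyclicSet D R := hc (c 2)
  have hLa : IsAcyclicSet D L := hc (c 2 - ((d - 1 : ℕ) : ZMod k))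
  have h2R : (2 : Fin 6) ∈ R := ⟨0, by omega, by simp⟩
  have h2L : (2 : Fin 6) ∈ L := ⟨d - 1, by omega, by ring⟩
  have hRL : ∀ v, v ∈ R ∨ v ∈ L := by
    intro v
    set α := (c v - c 2).val with hα
    have hαk : α < k := ZMod.val_lt _
    have hcast : ((α : ℕ) : ZMod k) = c v - c 2 := ZMod.natCast_zmod_val _
    by_cases h : α < d
    · left
      exact ⟨α, h, by rw [hcast]; ring⟩
    · right
      refine ⟨α + (d - 1) - k, by omega, ?_⟩
      have h1 : ((α + (d - 1) - k : ℕ) : ZMod k) = (α : ZMod k) + ((d - 1 : ℕ) : ZMod k) := by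
        have h2 : ((α + (d - 1) - k + k : ℕ) : ZMod k) = ((α + (d - 1) : ℕ) : ZMod k) := by
          congr 1; omega
        rw [Nat.cast_add, ZMod.natCast_self, add_zero] at h2
        rw [h2, Nat.cast_add]
      rw [h1, hcast]
      ring
  -- arcs
  have a01 : D 0 1 := by decide
  have a13 : D 1 3 := by decide
  have a30 : D 3 0 := by decide
  have a24 : D 2 4 := by decide
  have a41 : D 4 1 := by decide
  have a12 : D 1 2 := by decide
  have a43 : D 4 3 := by decide
  have a32 : D 3 2 := by decide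
  have a25 : D 2 5 := by decide
  have a53 : D 5 3 := by decide
  have a50 : D 5 0 := by decide
  have a02 : D 0 2 := by decide
  have tR1 : ¬ ((4 : Fin 6) ∈ R ∧ (1 : Fin 6) ∈ R) := fun h => triangle_bad hRa a24 a41 a12 h2R h.1 h.2
  have tL1 : ¬ ((4 : Fin 6) ∈ L ∧ (1 : Fin 6) ∈ L) := fun h => triangle_bad hLa a24 a41 a12 h2L h.1 h.2
  have tR2 : ¬ ((4 : Fin 6) ∈ R ∧ (3 : Fin 6) ∈ R) := fun h => triangle_bad hRa a24 a43 a32 h2R h.1 h.2
  have tL2 : ¬ ((4 : Fin 6) ∈ L ∧ (3 : Fin 6) ∈ L) := fun h => triangle_bad hLa a24 a43 a32 h2L h.1 h.2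
  have tR3 : ¬ ((5 : Fin 6) ∈ R ∧ (3 : Fin 6) ∈ R) := fun h => triangle_bad hRa a25 a53 a32 h2R h.1 h.2
  have tL3 : ¬ ((5 : Fin 6) ∈ L ∧ (3 : Fin 6) ∈ L) := fun h => triangle_bad hLa a25 a53 a32 h2L h.1 h.2
  have tR4 : ¬ ((5 : Fin 6) ∈ R ∧ (0 : Fin 6) ∈ R) := fun h => triangle_bad hRa a25 a50 a02 h2R h.1 h.2
  have tL4 : ¬ ((5 : Fin 6) ∈ L ∧ (0 : Fin 6) ∈ L) := fun h => triangle_bad hLa a25 a50 a02 h2L h.1 h.2
  have tR5 : ¬ ((0 : Fin 6) ∈ R ∧ (1 : Fin 6) ∈ R ∧ (3 : Fin 6) ∈ R) :=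
    fun h => triangle_bad hRa a01 a13 a30 h.1 h.2.1 h.2.2
  have tL5 : ¬ ((0 : Fin 6) ∈ L ∧ (1 : Fin 6) ∈ L ∧ (3 : Fin 6) ∈ L) :=
    fun h => triangle_bad hLa a01 a13 a30 h.1 h.2.1 h.2.2
  have r0 := hRL 0
  have r1 := hRL 1
  have r3 := hRL 3
  have r4 := hRL 4
  have r5 := hRL 5
  rcases r4 with h4 | h4
  · have h1 : (1 : Fin 6) ∈ L := r1.resolve_left (fun h => tR1 ⟨h4, h⟩)
    have h3 : (3 : Fin 6) ∈ L := r3.resolve_left (fun h => tR2 ⟨h4, h⟩)
    rcases r5 with h5 | h5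
    · have h0 : (0 : Fin 6) ∈ L := r0.resolve_left (fun h => tR4 ⟨h5, h⟩)
      exact tL5 ⟨h0, h1, h3⟩
    · exact tL3 ⟨h5, h3⟩
  · have h1 : (1 : Fin 6) ∈ R := r1.resolve_right (fun h => tL1 ⟨h4, h⟩)
    have h3 : (3 : Fin 6) ∈ R := r3.resolve_right (fun h => tL2 ⟨h4, h⟩)
    rcases r5 with h5 | h5
    · exact tR3 ⟨h5, h3⟩
    · have h0 : (0 : Fin 6) ∈ R := r0.resolve_right (fun h => tL4 ⟨h5, h⟩)
      exact tR5 ⟨h0, h1, h3⟩

/-- There is a simple planar digraph whose star dichromatic number is exactly two. -/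
theorem result : ∃ (V : Type) (_ : Fintype V) (A : V → V → Prop),
    IsSimple A ∧ IsPlanar A ∧ IsLeast (ratios A) 2 := by
  refine ⟨Fin 6, inferInstance, D, ⟨by decide, by decide⟩, D_planar, ?_, ?_⟩
  · exact ⟨2, 1, le_refl _, by norm_num, by norm_num, col, col_ok⟩
  · rintro q ⟨k, d, hd, hk, rfl, c, hc⟩
    have hd' : (0 : ℚ) < d := by exact_mod_cast hd
    rw [le_div_iff₀ hd']
    by_contra hcon
    push Not at hcon
    have hkd : k < 2 * d := by exact_mod_cast hcon
    exact lower k d hd hk hkd c hc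

end Pool.Agent.Results.MP_45899d_co.StarDichromaticTwo
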